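import Mathlib

/-!
A Lipschitz homeomorphism of a nonseparable Hilbert space onto itself that is Gateaux
differentiable at no point: on `ℓ²(ℝ)` apply `s ↦ max s (2 s)` to every coordinate. Every point has
a zero coordinate, and in the direction of that coordinate the two one-sided slopes are `1` and `2`.
-/

set_option autoImplicit false

open Filter Topology

namespace Pool.Agent.Results.MP_714461_an.NowhereGateaux

/-- `φ` is Gateaux differentiable at `x₀`: for some bounded linear operator `T`, the difference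
quotients `(φ (x₀ + t h) - φ x₀) / t` tend to `T h` in norm as `t → 0`, for every `h`. -/
def GateauxAt {X Y : Type} [NormedAddCommGroup X] [NormedSpace ℝ X] [NormedAddCommGroup Y]
    [NormedSpace ℝ Y] (φ : X → Y) (x₀ : X) : Prop :=
  ∃ T : X →L[ℝ] Y, ∀ h : X,
    Tendsto (fun t : ℝ => t⁻¹ • (φ (x₀ + t • h) - φ x₀)) (𝓝[≠] 0) (𝓝 (T h))

abbrev H : Type := lp (fun _ : ℝ => ℝ) 2

noncomputable def lift (g : ℝ → ℝ) (hg : LipschitzWith 2 g) (h0 : g 0 = 0) (x : H) : H :=
  ⟨fun i => g (x i), ((lp.memℓp x).const_smul (2 : ℝ)).mono' (fun i => by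
    have := hg.dist_le_mul (x i) 0
    rw [h0, dist_zero_right, dist_zero_right] at this
    simpa using this)⟩

theorem lift_apply (g : ℝ → ℝ) (hg : LipschitzWith 2 g) (h0 : g 0 = 0) (x : H) (i : ℝ) :
    lift g hg h0 x i = g (x i) := rfl

theorem lift_lip (g : ℝ → ℝ) (hg : LipschitzWith 2 g) (h0 : g 0 = 0) :
    LipschitzWith 2 (lift g hg h0) := by
  refine LipschitzWith.of_dist_le_mul (fun x y => ?_)
  rw [dist_eq_norm, dist_eq_norm]
  have h1 : ‖lift g hg h0 x - lift g hg h0 y‖ ≤ ‖(2 : ℝ) • (x - y)‖ := by
    refine lp.norm_mono (by norm_num) (fun i => ?_)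
    have := hg.dist_le_mul (x i) (y i)
    rw [dist_eq_norm, dist_eq_norm] at this
    simpa [lift_apply] using this
  rw [norm_smul] at h1
  simpa using h1

def up (s : ℝ) : ℝ := max s (2 * s)

noncomputable def down (s : ℝ) : ℝ := min s (s / 2)

theorem up_lip : LipschitzWith 2 up := by
  refine LipschitzWith.of_dist_le_mul (fun x y => ?_)
  simp only [Real.dist_eq, up, NNReal.coe_ofNat, max_def]
  rw [abs_le]
  split_ifs <;> cases abs_cases (x - y) <;> constructor <;> linarith

theorem down_lip : LipschitzWith 2 down := by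
  refine LipschitzWith.of_dist_le_mul (fun x y => ?_)
  simp only [Real.dist_eq, down, NNReal.coe_ofNat, min_def]
  rw [abs_le]
  split_ifs <;> cases abs_cases (x - y) <;> constructor <;> linarith

theorem down_up (s : ℝ) : down (up s) = s := by
  simp only [up, down, max_def, min_def]
  split_ifs <;> linarith

theorem up_down (s : ℝ) : up (down s) = s := by
  simp only [up, down, max_def, min_def]
  split_ifs <;> linarith

noncomputable def phi : H ≃ H where
  toFun := lift up up_lip (by simp [up])
  invFun := lift down down_lip (by simp [down])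
  left_inv x := lp.ext (funext (fun i => down_up (x i)))
  right_inv x := lp.ext (funext (fun i => up_down (x i)))

theorem exists_zero (x : H) : ∃ i, x i = 0 := by
  by_contra h
  have h1 := ((lp.memℓp x).summable (by norm_num)).countable_support
  refine Cardinal.not_countable_real (h1.mono (fun i _ => ?_))
  have h2 : x i ≠ 0 := fun h2 => h ⟨i, h2⟩
  exact (Real.rpow_pos_of_pos (norm_pos_iff.mpr h2) _).ne'

theorem not_separable : ¬ TopologicalSpace.SeparableSpace H := by
  classical
  intro h
  have h1 : Pairwise (Function.onFun Disjoint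
      (fun i : ℝ => Metric.ball (lp.single 2 i (1 : ℝ) : H) (1 / 2))) := by
    intro i j hij
    refine Metric.ball_disjoint_ball ?_
    have h2 := lp.norm_apply_le_norm (by norm_num)
      ((lp.single 2 i (1 : ℝ) : H) - (lp.single 2 j (1 : ℝ) : H)) i
    rw [dist_eq_norm]
    refine le_trans (le_of_eq ?_) h2
    simp [lp.single_apply, Pi.single_eq_of_ne hij]
    norm_num
  have h2 := h1.countable_of_isOpen_disjoint (fun _ => Metric.isOpen_ball)
    (fun _ => Metric.nonempty_ball.mpr (by norm_num))
  exact Cardinal.not_countable_real Set.countable_univ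

theorem not_gateaux (x₀ : H) : ¬ GateauxAt phi x₀ := by
  classical
  rintro ⟨T, hT⟩
  obtain ⟨i, hi⟩ := exists_zero x₀
  have h1 := ((lp.lipschitzWith_one_eval (E := fun _ : ℝ => ℝ) 2 i).continuous.tendsto _).comp
    (hT (lp.single 2 i (1 : ℝ)))
  have h2 : ∀ t : ℝ, (t⁻¹ • (phi (x₀ + t • (lp.single 2 i (1 : ℝ) : H)) - phi x₀)) i =
      t⁻¹ * up t := by
    intro t
    have h3 : ∀ y : H, phi y i = up (y i) := fun _ => rfl
    simp [h3, hi, up]
  have h3 : Tendsto (fun t : ℝ => t⁻¹ * up t) (𝓝[≠] 0) (𝓝 (T (lp.single 2 i (1 : ℝ)) i)) :=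
    h1.congr h2
  have h4 : Tendsto (fun t : ℝ => t⁻¹ * up t) (𝓝[>] 0) (𝓝 2) := by
    refine tendsto_const_nhds.congr' ?_
    filter_upwards [self_mem_nhdsWithin] with t ht
    have ht' : (0 : ℝ) < t := ht
    rw [up, max_eq_right (by linarith)]
    field_simp
  have h5 : Tendsto (fun t : ℝ => t⁻¹ * up t) (𝓝[<] 0) (𝓝 1) := by
    refine tendsto_const_nhds.congr' ?_
    filter_upwards [self_mem_nhdsWithin] with t ht
    have ht' : t < (0 : ℝ) := ht
    rw [up, max_eq_left (by linarith), inv_mul_cancel₀ ht'.ne]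
  have h6 := tendsto_nhds_unique (h3.mono_left (nhdsGT_le_nhdsNE 0)) h4
  have h7 := tendsto_nhds_unique (h3.mono_left (nhdsLT_le_nhdsNE 0)) h5
  linarith

theorem reflexive : Function.Surjective (NormedSpace.inclusionInDoubleDual ℝ H) := by
  intro F
  let e := InnerProductSpace.toDual ℝ H
  let g : StrongDual ℝ H := F.comp e.toContinuousLinearEquiv.toContinuousLinearMap
  refine ⟨e.symm g, ?_⟩
  ext f
  obtain ⟨y, rfl⟩ := e.surjective f
  rw [NormedSpace.dual_def]
  have h1 : e y (e.symm g) = inner ℝ y (e.symm g) := rfl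
  rw [h1, real_inner_comm, InnerProductSpace.toDual_symm_apply]
  rfl

/-- There are a nonseparable, reflexive, uniformly convex real Banach space `X` (a Hilbert space)
and a Lipschitz homeomorphism of `X` onto `X` that is Gateaux differentiable at no point. -/
theorem result : ∃ (X : Type) (_ : NormedAddCommGroup X) (_ : InnerProductSpace ℝ X),
    CompleteSpace X ∧ ¬ TopologicalSpace.SeparableSpace X ∧
    Function.Surjective (NormedSpace.inclusionInDoubleDual ℝ X) ∧ UniformConvexSpace X ∧
    ∃ (φ : X ≃ X) (K K' : NNReal), LipschitzWith K φ ∧ LipschitzWith K' φ.symm ∧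
      ∀ x₀ : X, ¬ GateauxAt φ x₀ :=
  ⟨H, inferInstance, inferInstance, inferInstance, not_separable, reflexive, inferInstance,
    phi, 2, 2, lift_lip up up_lip (by simp [up]), lift_lip down down_lip (by simp [down]),
    not_gateaux⟩

end Pool.Agent.Results.MP_714461_an.NowhereGateaux
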